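import Mathlib
import Pool.Agent.H22.SupEmbed

set_option autoImplicit false

universe u

/-- A partially ordered group whose order is an intersection of right orders embeds into a
lattice-ordered group preserving all existing suprema and infima. -/
theorem Pool.Agent.Results.MP_98d06d_al.SupEmbedding.result
    (G : Type u) [Group G] [PartialOrder G] [MulLeftMono G] [MulRightMono G]
    (R : Set (LinearOrder G))
    (hR : ∀ r ∈ R, ∀ a b c : G, r.le a b → r.le (a * c) (b * c))
    (hint : ∀ a b : G, a ≤ b ↔ ∀ r ∈ R, r.le a b) :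
    ∃ (H : Type u) (_ : Group H) (_ : Lattice H), MulLeftMono H ∧ MulRightMono H ∧
      ∃ φ : G →* H, Function.Injective φ ∧ (∀ a b : G, a ≤ b ↔ φ a ≤ φ b) ∧
        (∀ (S : Set G) (s : G), IsLUB S s → IsLUB (φ '' S) (φ s)) ∧
        (∀ (S : Set G) (s : G), IsGLB S s → IsGLB (φ '' S) (φ s)) := by
  obtain ⟨φ, hφ⟩ := Pool.Agent.H22.SupEmbed.exists_embed R hR hint
  obtain ⟨M, hM, hT⟩ := Pool.Agent.H22.SupEmbed.exists_fixed φ hφ
  have hle := Pool.Agent.H22.SupEmbed.ψ_le hM hφ
  exact ⟨Pool.Agent.H22.SupEmbed.H hM, inferInstance, inferInstance, inferInstance, inferInstance,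
    Pool.Agent.H22.SupEmbed.ψ hM,
    fun a b h => le_antisymm ((hle a b).2 h.le) ((hle b a).2 h.ge), hle,
    Pool.Agent.H22.SupEmbed.ψ_lub hM hφ hT, Pool.Agent.H22.SupEmbed.ψ_glb hM hφ hT⟩
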